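import Pool.Agent.K1H12.SW.Stm2
import Pool.Agent.K1H99.HE.Fin

set_option autoImplicit false

/-!
# HE-FINa: the `a`-fold version of FIN
-/

namespace Pool.Agent.K1H33.HE

open Pool.Agent.K1H12.SW Pool.Agent.K1H99.HE

/-- powers of short exact sequences -/
theorem ses_pow {G : Type} [Group G] {A B D : Type} [AddCommGroup A] [AddCommGroup B]
    [AddCommGroup D] {α : Representation ℤ G A} {β : Representation ℤ G B}
    {δ : Representation ℤ G D} (h : Ses α β δ) (a : ℕ) : Ses (powR a α) (powR a β) (powR a δ) := by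
  obtain ⟨f, g, h1, h2, h3, h4, h5⟩ := h
  refine ⟨f.compLeft (Fin a), g.compLeft (Fin a), fun x v => ?_, fun x v => ?_, ?_, ?_, ?_⟩
  · funext i
    exact h1 x (v i)
  · funext i
    exact h2 x (v i)
  · intro v w h
    funext i
    exact h3 (congrFun h i)
  · intro v
    choose w hw using fun i => h4 (v i)
    exact ⟨w, funext hw⟩
  · intro v
    constructor
    · intro h
      have h6 : ∀ i, ∃ w, f w = v i := fun i => (h5 (v i)).1 (congrFun h i)
      choose w hw using h6
      exact ⟨w, funext hw⟩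
    · rintro ⟨w, rfl⟩
      funext i
      exact (h5 (f (w i))).2 ⟨w i, rfl⟩

theorem t_FINa : S_FINa := by
  intro hrep hlat G _ a h V _ ρ hρ
  obtain ⟨L, K, _, _, lam, κ, a1, a2, a3, a4, hses⟩ := exists_ses ρ hρ
  exact ((hrep G).ttF _ _ _ (powR a κ) (powR a lam) (powR a ρ) (ses_pow hses a)).2.2
    (hlat hrep G K κ a3 a4 a h) (hlat hrep G L lam a1 a2 a h)

end Pool.Agent.K1H33.HE
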