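import Pool.Agent.K1H12.SW.Stm2

set_option autoImplicit false

/-!
# HE-LATa: the `a`-fold version of LAT
-/

namespace Pool.Agent.K1H33.HE

open Pool.Agent.K1H12.SW MonoidAlgebra

section

variable {G : Type} [Group G]

/-- the representation on a module over the group ring -/
noncomputable def rp (M : Type) [AddCommGroup M] [Module (MonoidAlgebra ℤ G) M] :
    Representation ℤ G M := Representation.ofModule' M

theorem rp_apply (M : Type) [AddCommGroup M] [Module (MonoidAlgebra ℤ G) M] (g : G) (x : M) :
    rp M g x = (single g (1 : ℤ)) • x := by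
  simp [rp, Representation.ofModule']

/-- the module of the representation of a module -/
theorem rpE (M : Type) [AddCommGroup M] [Module (MonoidAlgebra ℤ G) M] :
    Nonempty (M ≃ₗ[MonoidAlgebra ℤ G] (rp (G := G) M).asModule) := by
  have h : ∀ (a : MonoidAlgebra ℤ G) (x : M), (rp (G := G) M).asAlgebraHom a x = a • x := by
    intro a x
    induction a using MonoidAlgebra.induction_linear with
    | zero => simp
    | add f g hf hg => rw [map_add, LinearMap.add_apply, hf, hg, add_smul]
    | single g n =>
      rw [Representation.asAlgebraHom_single, LinearMap.smul_apply, rp_apply, ← smul_assoc]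
      congr 1
      simp
  exact ⟨{ toFun := fun x => x
           map_add' := fun _ _ => rfl
           map_smul' := fun a x => (h a x).symm
           invFun := fun x => x
           left_inv := fun _ => rfl
           right_inv := fun _ => rfl }⟩

/-- the representation of the module of a representation -/
theorem rp_asModule {V : Type} [AddCommGroup V] (μ : Representation ℤ G V) :
    IsoR (rp (G := G) μ.asModule) μ := by
  refine ⟨{ toFun := fun x => x
            map_add' := fun _ _ => rfl
            map_smul' := fun _ _ => rfl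
            invFun := fun x => x
            left_inv := fun _ => rfl
            right_inv := fun _ => rfl }, fun g v => ?_⟩
  change rp (G := G) μ.asModule g v = μ g v
  rw [rp_apply]
  change μ.asAlgebraHom (single g (1 : ℤ)) v = μ g v
  rw [Representation.asAlgebraHom_single, one_smul]

theorem ses_of_lin {P Q S : Type} [AddCommGroup P] [Module (MonoidAlgebra ℤ G) P] [AddCommGroup Q]
    [Module (MonoidAlgebra ℤ G) Q] [AddCommGroup S] [Module (MonoidAlgebra ℤ G) S]
    (f : P →ₗ[MonoidAlgebra ℤ G] Q) (g : Q →ₗ[MonoidAlgebra ℤ G] S) (h1 : Function.Injective f)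
    (h2 : Function.Surjective g) (h3 : Function.Exact f g) :
    Ses (rp (G := G) P) (rp (G := G) Q) (rp (G := G) S) := by
  refine ⟨f.restrictScalars ℤ, g.restrictScalars ℤ, fun x v => ?_, fun x v => ?_, h1, h2, h3⟩
  · change f (rp P x v) = rp Q x (f v)
    rw [rp_apply, rp_apply, map_smul]
  · change g (rp Q x v) = rp S x (g v)
    rw [rp_apply, rp_apply, map_smul]

variable {r : ℕ} (A : G →* Matrix (Fin r) (Fin r) ℤ)

/-- the tensor product with the representation on `ℤ^r` given by matrices -/
def tw {M : Type} [AddCommGroup M] (μ : Representation ℤ G M) :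
    Representation ℤ G (Fin r → M) where
  toFun g :=
    { toFun := fun f i => ∑ j, A g i j • μ g (f j)
      map_add' := fun f f' => by
        funext i
        simp only [Pi.add_apply, map_add, smul_add, Finset.sum_add_distrib]
      map_smul' := fun n f => by
        funext i
        simp only [Pi.smul_apply, map_smul, RingHom.id_apply, Finset.smul_sum]
        exact Finset.sum_congr rfl fun j _ => smul_comm _ _ _ }
  map_one' := by
    refine LinearMap.ext fun f => funext fun i => ?_
    change ∑ j, A 1 i j • μ 1 (f j) = f i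
    rw [map_one, map_one, Finset.sum_eq_single i]
    · simp
    · intro j _ hj
      rw [Matrix.one_apply_ne hj.symm, zero_smul]
    · intro h
      exact absurd (Finset.mem_univ _) h
  map_mul' g h := by
    refine LinearMap.ext fun f => funext fun i => ?_
    change ∑ j, A (g * h) i j • μ (g * h) (f j) =
      ∑ k, A g i k • μ g (∑ j, A h k j • μ h (f j))
    simp only [map_sum, map_smul, Finset.smul_sum]
    rw [Finset.sum_comm]
    refine Finset.sum_congr rfl fun j _ => ?_
    rw [map_mul, map_mul, Matrix.mul_apply, Finset.sum_smul]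
    refine Finset.sum_congr rfl fun k _ => ?_
    rw [mul_smul]
    rfl

theorem tw_apply {M : Type} [AddCommGroup M] (μ : Representation ℤ G M) (g : G) (f : Fin r → M)
    (i : Fin r) : tw A μ g f i = ∑ j, A g i j • μ g (f j) := rfl

theorem eqv_tw {M N : Type} [AddCommGroup M] [AddCommGroup N] {μ : Representation ℤ G M}
    {ν : Representation ℤ G N} {f : M →ₗ[ℤ] N} (h : Eqv μ ν f) :
    Eqv (tw A μ) (tw A ν) (f.compLeft (Fin r)) := by
  intro g v
  funext i
  change f (∑ j, A g i j • μ g (v j)) = ∑ j, A g i j • ν g (f (v j))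
  rw [map_sum]
  refine Finset.sum_congr rfl fun j _ => ?_
  rw [map_smul, h]

theorem ses_tw {P Q S : Type} [AddCommGroup P] [AddCommGroup Q] [AddCommGroup S]
    {α : Representation ℤ G P} {β : Representation ℤ G Q} {δ : Representation ℤ G S}
    (h : Ses α β δ) : Ses (tw A α) (tw A β) (tw A δ) := by
  obtain ⟨f, g, h1, h2, h3, h4, h5⟩ := h
  refine ⟨f.compLeft (Fin r), g.compLeft (Fin r), eqv_tw A h1, eqv_tw A h2, ?_, ?_, ?_⟩
  · intro v w h
    funext i
    exact h3 (congrFun h i)
  · intro v
    choose w hw using fun i => h4 (v i)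
    exact ⟨w, funext hw⟩
  · intro v
    constructor
    · intro h
      have h6 : ∀ i, ∃ w, f w = v i := fun i => (h5 (v i)).1 (congrFun h i)
      choose w hw using h6
      exact ⟨w, funext hw⟩
    · rintro ⟨w, rfl⟩
      funext i
      exact (h5 (f (w i))).2 ⟨w i, rfl⟩

theorem iso_tw {M N : Type} [AddCommGroup M] [AddCommGroup N] {μ : Representation ℤ G M}
    {ν : Representation ℤ G N} (h : IsoR μ ν) : IsoR (tw A μ) (tw A ν) := by
  obtain ⟨f, hf⟩ := h
  exact ⟨LinearEquiv.piCongrRight fun _ => f, eqv_tw A hf⟩

/-! ### the free module -/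

/-- multiplication of the coefficients by a function -/
noncomputable def dd (f : G → ℤ) : MonoidAlgebra ℤ G →+ MonoidAlgebra ℤ G :=
  (Finsupp.liftAddHom fun h => (singleAddHom h).comp (AddMonoidHom.mulLeft (f h))).comp
    coeffAddEquiv.toAddMonoidHom

theorem dd_single (f : G → ℤ) (h : G) (x : ℤ) : dd f (single h x) = single h (f h * x) := by
  simp [dd]

theorem dd_comp (f g : G → ℤ) (x : MonoidAlgebra ℤ G) : dd f (dd g x) = dd (f * g) x := by
  induction x using MonoidAlgebra.induction_linear with
  | zero => simp
  | add x y hx hy => rw [map_add, map_add, map_add, hx, hy]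
  | single h n => rw [dd_single, dd_single, dd_single, Pi.mul_apply, mul_assoc]

theorem dd_sum {ι : Type} (S : Finset ι) (f : ι → G → ℤ) (x : MonoidAlgebra ℤ G) :
    ∑ i ∈ S, dd (f i) x = dd (fun h => ∑ i ∈ S, f i h) x := by
  induction x using MonoidAlgebra.induction_linear with
  | zero => simp
  | add x y hx hy => simp only [map_add, Finset.sum_add_distrib, hx, hy]
  | single h n =>
    simp only [dd_single]
    rw [Finset.sum_mul]
    exact (map_sum (singleAddHom h) (fun i => f i h * n) S).symm

theorem dd_one (x : MonoidAlgebra ℤ G) : dd (fun _ => 1) x = x := by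
  induction x using MonoidAlgebra.induction_linear with
  | zero => simp
  | add x y hx hy => rw [map_add, hx, hy]
  | single h n => rw [dd_single, one_mul]

theorem dd_zero (x : MonoidAlgebra ℤ G) : dd (fun _ => 0) x = 0 := by
  induction x using MonoidAlgebra.induction_linear with
  | zero => simp
  | add x y hx hy => rw [map_add, hx, hy, add_zero]
  | single h n => rw [dd_single, zero_mul, single_zero]

theorem dd_smul (n : ℤ) (f : G → ℤ) (x : MonoidAlgebra ℤ G) :
    dd (fun h => n * f h) x = n • dd f x := by
  induction x using MonoidAlgebra.induction_linear with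
  | zero => simp
  | add x y hx hy => rw [map_add, map_add, hx, hy, smul_add]
  | single h m => rw [dd_single, dd_single, smul_single, smul_eq_mul, mul_assoc]

theorem dd_mul (f : G → ℤ) (g : G) (x : MonoidAlgebra ℤ G) :
    dd f (single g 1 * x) = single g 1 * dd (fun h => f (g * h)) x := by
  induction x using MonoidAlgebra.induction_linear with
  | zero => simp
  | add x y hx hy => rw [mul_add, map_add, map_add, mul_add, hx, hy]
  | single h m =>
    rw [single_mul_single, dd_single, dd_single, single_mul_single, one_mul, one_mul]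

/-- matrices of functions -/
noncomputable def PS (B : G → Matrix (Fin r) (Fin r) ℤ) :
    (Fin r → MonoidAlgebra ℤ G) →+ (Fin r → MonoidAlgebra ℤ G) where
  toFun c i := ∑ j, dd (fun h => B h i j) (c j)
  map_zero' := by
    funext i
    simp
  map_add' c c' := by
    funext i
    simp only [Pi.add_apply, map_add, Finset.sum_add_distrib]

theorem PS_apply (B : G → Matrix (Fin r) (Fin r) ℤ) (c : Fin r → MonoidAlgebra ℤ G) (i : Fin r) :
    PS B c i = ∑ j, dd (fun h => B h i j) (c j) := rfl

theorem PS_comp (B B' : G → Matrix (Fin r) (Fin r) ℤ) (c : Fin r → MonoidAlgebra ℤ G) :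
    PS B (PS B' c) = PS (fun h => B h * B' h) c := by
  funext i
  rw [PS_apply, PS_apply]
  simp only [PS_apply, map_sum, dd_comp]
  rw [Finset.sum_comm]
  refine Finset.sum_congr rfl fun k _ => ?_
  rw [dd_sum]
  rfl

theorem PS_one (c : Fin r → MonoidAlgebra ℤ G) : PS (fun _ : G => 1) c = c := by
  funext i
  rw [PS_apply, Finset.sum_eq_single i]
  · simp only [Matrix.one_apply_eq]
    exact dd_one _
  · intro j _ hj
    simp only [Matrix.one_apply_ne hj.symm]
    exact dd_zero _
  · intro h
    exact absurd (Finset.mem_univ _) h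

theorem iso_free : IsoR (rp (G := G) (Fin r → MonoidAlgebra ℤ G))
    (tw A (rp (G := G) (MonoidAlgebra ℤ G))) := by
  have h1 : ∀ c, PS (fun h => A h) (PS (fun h => A h⁻¹) c) = c := fun c => by
    rw [PS_comp]
    have : (fun h : G => A h * A h⁻¹) = fun _ => 1 := by
      funext h
      rw [← map_mul, mul_inv_cancel, map_one]
    rw [this]
    exact PS_one c
  have h2 : ∀ c, PS (fun h => A h⁻¹) (PS (fun h => A h) c) = c := fun c => by
    rw [PS_comp]
    have : (fun h : G => A h⁻¹ * A h) = fun _ => 1 := by
      funext h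
      rw [← map_mul, inv_mul_cancel, map_one]
    rw [this]
    exact PS_one c
  refine ⟨{ toFun := PS (fun h => A h)
            map_add' := fun x y => map_add _ x y
            map_smul' := fun n x => map_zsmul _ n x
            invFun := PS (fun h => A h⁻¹)
            left_inv := h2
            right_inv := h1 }, fun g c => ?_⟩
  change PS (fun h => A h) (rp (G := G) (Fin r → MonoidAlgebra ℤ G) g c) =
    tw A (rp (G := G) (MonoidAlgebra ℤ G)) g (PS (fun h => A h) c)
  funext i
  rw [tw_apply, PS_apply, rp_apply]
  simp only [rp_apply, PS_apply, Pi.smul_apply, smul_eq_mul, dd_mul, Finset.mul_sum,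
    Finset.smul_sum]
  rw [Finset.sum_comm]
  refine Finset.sum_congr rfl fun k _ => ?_
  have e1 : (fun h => A (g * h) i k) = fun h => ∑ j, A g i j * A h j k := by
    funext h
    rw [map_mul, Matrix.mul_apply]
  rw [e1, ← dd_sum, Finset.mul_sum]
  refine Finset.sum_congr rfl fun j _ => ?_
  rw [dd_smul, mul_smul_comm]

theorem ff_rp_free (k : ℕ) : FFr (rp (G := G) (Fin k → MonoidAlgebra ℤ G)) := by
  obtain ⟨e⟩ := rpE (G := G) (Fin k → MonoidAlgebra ℤ G)
  refine ⟨0, 0, k, ⟨?_⟩⟩
  exact LinearEquiv.prodUnique.trans e.symm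

theorem ff_base (hrep : RepProps G) : FFr (tw A (rp (G := G) (MonoidAlgebra ℤ G))) :=
  hrep.isoF _ _ _ _ (iso_free A) (ff_rp_free r)

theorem ff_free (hrep : RepProps G) (k : ℕ) :
    FFr (tw A (rp (G := G) (Fin k → MonoidAlgebra ℤ G))) := by
  induction k with
  | zero => exact hrep.zeroF _ _ inferInstance
  | succ k ih =>
    have h1 := ses_of_lin (G := G) (P := MonoidAlgebra ℤ G) (Q := Fin (k + 1) → MonoidAlgebra ℤ G)
      (S := Fin k → MonoidAlgebra ℤ G)
      (LinearMap.single (MonoidAlgebra ℤ G) (fun _ : Fin (k + 1) => MonoidAlgebra ℤ G) 0)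
      (LinearMap.funLeft (MonoidAlgebra ℤ G) (MonoidAlgebra ℤ G) Fin.succ)
      (fun x y h => by
        have h2 := congrFun h 0
        simpa using h2)
      (fun v => ⟨Fin.cons 0 v, by funext i; simp [LinearMap.funLeft_apply]⟩)
      (fun v => by
        constructor
        · intro h
          refine ⟨v 0, ?_⟩
          funext i
          refine Fin.cases ?_ (fun i => ?_) i
          · simp
          · have h2 := congrFun h i
            rw [LinearMap.funLeft_apply] at h2
            rw [h2]
            simp
        · rintro ⟨x, rfl⟩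
          funext i
          simp [LinearMap.funLeft_apply])
    exact (hrep.ttF _ _ _ _ _ _ (ses_tw A h1)).1 (ff_base A hrep) ih

theorem ff_sf (hrep : RepProps G) (P : Type) [AddCommGroup P] [Module (MonoidAlgebra ℤ G) P]
    (h : SF (MonoidAlgebra ℤ G) P) : FFr (tw A (rp (G := G) P)) := by
  obtain ⟨a, b, ⟨e⟩⟩ := h
  have h1 := ses_of_lin (G := G) (P := P) (Q := Fin b → MonoidAlgebra ℤ G)
    (S := Fin a → MonoidAlgebra ℤ G)
    (e.toLinearMap ∘ₗ LinearMap.inl (MonoidAlgebra ℤ G) P (Fin a → MonoidAlgebra ℤ G))
    (LinearMap.snd (MonoidAlgebra ℤ G) P (Fin a → MonoidAlgebra ℤ G) ∘ₗ e.symm.toLinearMap)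
    (fun x y h => by
      have h2 : ((x, 0) : P × (Fin a → MonoidAlgebra ℤ G)) = (y, 0) := e.injective h
      exact (Prod.ext_iff.1 h2).1)
    (fun v => ⟨e (0, v), by simp⟩)
    (fun v => by
      constructor
      · intro h
        refine ⟨(e.symm v).1, ?_⟩
        have h2 : (e.symm v).2 = 0 := h
        change e ((e.symm v).1, 0) = v
        rw [← h2]
        exact e.apply_symm_apply v
      · rintro ⟨x, rfl⟩
        simp)
  exact (hrep.ttF _ _ _ _ _ _ (ses_tw A h1)).2.1 (ff_free A hrep b) (ff_free A hrep a)

theorem ff_res (hrep : RepProps G) (n : ℕ) : ∀ (M : Type) [AddCommGroup M]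
    [Module (MonoidAlgebra ℤ G) M], Res (MonoidAlgebra ℤ G)
      (fun P _ _ => SF (MonoidAlgebra ℤ G) P) n M → FFr (tw A (rp (G := G) M)) := by
  induction n with
  | zero =>
    intro M _ _ h
    exact ff_sf A hrep M h
  | succ n ih =>
    intro M _ _ h
    obtain ⟨P, _, _, f, hP, hf, hK⟩ := h
    have h1 := ses_of_lin (G := G) (LinearMap.ker f).subtype f Subtype.val_injective hf
      (LinearMap.exact_subtype_ker_map f)
    exact (hrep.ttF _ _ _ _ _ _ (ses_tw A h1)).2.2 (ih _ hK) (ff_sf A hrep P hP)

end

theorem t_LATa : S_LATa := by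
  intro hrep G _ V _ ρ hfin hfree a h
  obtain ⟨n, hn⟩ := h
  obtain ⟨b⟩ : Nonempty (Module.Basis (Fin (Module.finrank ℤ V)) ℤ V) := ⟨Module.finBasis ℤ V⟩
  obtain ⟨A, hA⟩ : ∃ A : G →* Matrix (Fin (Module.finrank ℤ V)) (Fin (Module.finrank ℤ V)) ℤ,
      ∀ g, A g = LinearMap.toMatrix b b (ρ g) :=
    ⟨{ toFun := fun g => LinearMap.toMatrix b b (ρ g)
       map_one' := by
         rw [map_one]
         exact LinearMap.toMatrix_one b
       map_mul' := fun g h => by
         rw [map_mul]
         exact LinearMap.toMatrix_mul b _ _ }, fun g => rfl⟩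
  have h1 := ff_res A (hrep G) n _ hn
  have h2 := (hrep G).isoF _ _ _ _ (iso_tw A (rp_asModule (trivN G a))) h1
  refine (hrep G).isoF _ _ _ _ ⟨{
    toFun := fun f k => b.equivFun.symm fun i => f i k
    map_add' := fun f f' => by
      funext k
      exact map_add b.equivFun.symm (fun i => f i k) (fun i => f' i k)
    map_smul' := fun n f => by
      funext k
      exact map_smul b.equivFun.symm n (fun i => f i k)
    invFun := fun v i k => b.equivFun (v k) i
    left_inv := fun f => by
      funext i k
      dsimp only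
      rw [LinearEquiv.apply_symm_apply]
    right_inv := fun v => by
      funext k
      dsimp only
      exact b.equivFun.symm_apply_apply (v k) }, fun g f => ?_⟩ h2
  funext k
  change b.equivFun.symm (fun i => tw A (trivN G a) g f i k) =
    ρ g (b.equivFun.symm fun i => f i k)
  apply b.equivFun.injective
  rw [LinearEquiv.apply_symm_apply]
  have h3 := LinearMap.toMatrix_mulVec_repr b b (ρ g) (b.equivFun.symm fun i => f i k)
  have h4 : (b.repr (b.equivFun.symm fun i => f i k) : _ → ℤ) = fun i => f i k :=
    b.equivFun.apply_symm_apply _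
  rw [h4] at h3
  refine Eq.trans ?_ h3
  funext i
  rw [tw_apply, Finset.sum_apply, hA]
  rfl

end Pool.Agent.K1H33.HE
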